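import Mathlib

/-!
Rigid, maximally diameter-`r` subsets of the hypercube: basic operations.
-/

namespace X225.Rf

/-- vertices of the hypercube -/
abbrev Cube (n : ℕ) := Fin n → Bool

/-- rigid, maximally diameter-`r`, elementwise -/
structure R {n : ℕ} (r : ℕ) (A : Finset (Cube n)) : Prop where
  ne : A.Nonempty
  le : ∀ x ∈ A, ∀ y ∈ A, hammingDist x y ≤ r
  far : ∀ a ∈ A, ∃ x ∈ A, hammingDist x a = r
  mx : ∀ x, x ∉ A → ∃ a ∈ A, r < hammingDist x a

/-- prepend the coordinate `b` -/
def emb {n : ℕ} (b : Bool) : Cube n ↪ Cube (n + 1) :=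
  ⟨fun x => Fin.cons b x, fun _ _ h => Fin.cons_right_injective (α := fun _ => Bool) b h⟩

lemma dist_emb {n : ℕ} (b c : Bool) (x y : Cube n) :
    hammingDist (emb b x) (emb c y) = (if b = c then 0 else 1) + hammingDist x y := by
  unfold hammingDist
  rw [Finset.card_filter, Finset.card_filter, Fin.sum_univ_succ]
  have h1 : ∀ i : Fin n, (emb b x) i.succ = x i := fun i => rfl
  have h2 : ∀ i : Fin n, (emb c y) i.succ = y i := fun i => rfl
  have h3 : (emb b x) 0 = b := rfl
  have h4 : (emb c y) 0 = c := rfl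
  simp only [h1, h2, h3, h4]
  by_cases h : b = c <;> simp [h]

lemma exists_emb {n : ℕ} (z : Cube (n + 1)) : ∃ b x, z = emb b x :=
  ⟨z 0, Fin.tail z, (Fin.cons_self_tail z).symm⟩

lemma R.lift {n r : ℕ} {A : Finset (Cube n)} (h : R r A) : R r (A.map (emb true)) := by
  refine ⟨?_, ?_, ?_, ?_⟩
  · exact h.ne.map
  · intro x hx y hy
    rw [Finset.mem_map] at hx hy
    obtain ⟨x, hx, rfl⟩ := hx
    obtain ⟨y, hy, rfl⟩ := hy
    rw [dist_emb]
    simpa using h.le x hx y hy
  · intro a ha
    rw [Finset.mem_map] at ha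
    obtain ⟨a, ha, rfl⟩ := ha
    obtain ⟨x, hx, hxa⟩ := h.far a ha
    refine ⟨emb true x, Finset.mem_map_of_mem _ hx, ?_⟩
    rw [dist_emb, hxa]
    simp
  · intro z hz
    obtain ⟨b, x, rfl⟩ := exists_emb z
    by_cases hx : x ∈ A
    · obtain ⟨a, ha, hax⟩ := h.far x hx
      have hb : b ≠ true := by
        rintro rfl
        exact hz (Finset.mem_map_of_mem _ hx)
      refine ⟨emb true a, Finset.mem_map_of_mem _ ha, ?_⟩
      rw [dist_emb, if_neg hb, hammingDist_comm, hax]
      omega
    · obtain ⟨a, ha, hlt⟩ := h.mx x hx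
      refine ⟨emb true a, Finset.mem_map_of_mem _ ha, ?_⟩
      rw [dist_emb]
      omega

/-- the product of `A` with an edge -/
def dbl {n : ℕ} (A : Finset (Cube n)) : Finset (Cube (n + 1)) :=
  A.map (emb true) ∪ A.map (emb false)

lemma mem_dbl {n : ℕ} {A : Finset (Cube n)} {b : Bool} {x : Cube n} :
    emb b x ∈ dbl A ↔ x ∈ A := by
  unfold dbl
  rw [Finset.mem_union, Finset.mem_map, Finset.mem_map]
  constructor
  · rintro (⟨y, hy, he⟩ | ⟨y, hy, he⟩)
    · have : y = x := by
        funext i
        exact congrFun he i.succ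
      exact this ▸ hy
    · have : y = x := by
        funext i
        exact congrFun he i.succ
      exact this ▸ hy
  · intro hx
    cases b
    · exact Or.inr ⟨x, hx, rfl⟩
    · exact Or.inl ⟨x, hx, rfl⟩

lemma card_dbl {n : ℕ} (A : Finset (Cube n)) : (dbl A).card = 2 * A.card := by
  unfold dbl
  rw [Finset.card_union_of_disjoint, Finset.card_map, Finset.card_map]
  · ring
  · rw [Finset.disjoint_left]
    intro z h1 h2
    rw [Finset.mem_map] at h1 h2
    obtain ⟨x, _, rfl⟩ := h1
    obtain ⟨y, _, he⟩ := h2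
    have h0 : false = true := congrFun he 0
    exact absurd h0 (by decide)

lemma R.dbl {n r : ℕ} {A : Finset (Cube n)} (h : R r A) : R (r + 1) (dbl A) := by
  refine ⟨?_, ?_, ?_, ?_⟩
  · obtain ⟨a, ha⟩ := h.ne
    exact ⟨emb true a, mem_dbl.2 ha⟩
  · intro x hx y hy
    obtain ⟨b, x, rfl⟩ := exists_emb x
    obtain ⟨c, y, rfl⟩ := exists_emb y
    rw [dist_emb]
    have := h.le x (mem_dbl.1 hx) y (mem_dbl.1 hy)
    split_ifs <;> omega
  · intro a ha
    obtain ⟨b, a, rfl⟩ := exists_emb a
    obtain ⟨x, hx, hxa⟩ := h.far a (mem_dbl.1 ha)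
    refine ⟨emb (!b) x, mem_dbl.2 hx, ?_⟩
    rw [dist_emb, if_neg (by cases b <;> decide), hxa]
    omega
  · intro z hz
    obtain ⟨b, x, rfl⟩ := exists_emb z
    obtain ⟨a, ha, hlt⟩ := h.mx x (fun hx => hz (mem_dbl.2 hx))
    refine ⟨emb (!b) a, mem_dbl.2 ha, ?_⟩
    rw [dist_emb, if_neg (by cases b <;> decide)]
    omega

/-! ### products -/

/-- concatenation -/
def app {a b : ℕ} (z : Cube a × Cube b) : Cube (a + b) := Fin.append z.1 z.2

lemma dist_app {a b : ℕ} (z w : Cube a × Cube b) :
    hammingDist (app z) (app w) = hammingDist z.1 w.1 + hammingDist z.2 w.2 := by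
  unfold hammingDist app
  rw [Finset.card_filter, Finset.card_filter, Finset.card_filter, Fin.sum_univ_add]
  simp only [Fin.append_left, Fin.append_right]

lemma app_inj {a b : ℕ} : Function.Injective (app : Cube a × Cube b → Cube (a + b)) := by
  intro z w h
  have h1 : hammingDist (app z) (app w) = 0 := by rw [h, hammingDist_self]
  rw [dist_app] at h1
  exact Prod.ext (eq_of_hammingDist_eq_zero (by omega)) (eq_of_hammingDist_eq_zero (by omega))

lemma exists_app {a b : ℕ} (z : Cube (a + b)) : ∃ w : Cube a × Cube b, z = app w :=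
  ⟨(fun i => z (Fin.castAdd b i), fun i => z (Fin.natAdd a i)),
    (Fin.append_castAdd_natAdd (f := z)).symm⟩

/-! ### antipodes and parity -/

/-- the antipode -/
def neg {m : ℕ} (u : Cube m) : Cube m := fun i => !(u i)

lemma neg_neg' {m : ℕ} (u : Cube m) : neg (neg u) = u := by
  funext i; simp [neg]

/-- the weight -/
def wt {m : ℕ} (u : Cube m) : ℕ := ∑ i, (u i).toNat

lemma dist_neg {m : ℕ} (u v : Cube m) : hammingDist u v + hammingDist (neg u) v = m := by
  unfold hammingDist neg
  rw [Finset.card_filter, Finset.card_filter, ← Finset.sum_add_distrib]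
  have : ∀ i : Fin m, ((if u i ≠ v i then 1 else 0) + if (!u i) ≠ v i then 1 else 0) = 1 := by
    intro i
    cases u i <;> cases v i <;> simp
  simp only [this]
  simp

lemma dist_self_neg {m : ℕ} (u : Cube m) : hammingDist u (neg u) = m := by
  have := dist_neg u (neg u)
  rw [hammingDist_self] at this
  omega

lemma eq_neg {m : ℕ} {u v : Cube m} (h : hammingDist u v = m) : v = neg u := by
  have := dist_neg u v
  exact (eq_of_hammingDist_eq_zero (by omega)).symm

lemma even_dist {m : ℕ} (u v : Cube m) :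
    Even (hammingDist u v) ↔ (Even (wt u) ↔ Even (wt v)) := by
  have key : hammingDist u v + 2 * (∑ i, ((u i) && (v i)).toNat) = wt u + wt v := by
    unfold hammingDist wt
    rw [Finset.card_filter, Finset.mul_sum, ← Finset.sum_add_distrib, ← Finset.sum_add_distrib]
    apply Finset.sum_congr rfl
    intro i _
    cases u i <;> cases v i <;> simp
  rw [← Nat.even_add, ← key, Nat.even_add]
  simp

lemma even_neg {m : ℕ} (hm : Even m) (u : Cube m) : Even (wt (neg u)) ↔ Even (wt u) := by
  have h := even_dist u (neg u)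
  rw [dist_self_neg] at h
  tauto

/-- the antipode with one coordinate changed back -/
def flip {m : ℕ} (i : Fin m) (u : Cube m) : Cube m := Function.update (neg u) i (u i)

lemma dist_flip {m : ℕ} (i : Fin m) (u : Cube m) : hammingDist u (flip i u) + 1 = m := by
  have h := dist_neg u (flip i u)
  have h1 : hammingDist (neg u) (flip i u) = 1 := by
    unfold hammingDist
    rw [Finset.card_eq_one]
    refine ⟨i, ?_⟩
    ext j
    rw [Finset.mem_singleton]
    constructor
    · intro h
      by_contra hj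
      have h' := (Finset.mem_filter.1 h).2
      apply h'
      unfold flip
      rw [Function.update_of_ne hj]
    · rintro rfl
      refine Finset.mem_filter.2 ⟨Finset.mem_univ _, ?_⟩
      unfold flip
      rw [Function.update_self]
      unfold neg
      cases u j <;> simp
  omega

lemma odd_flip {m : ℕ} (hm : Even m) (i : Fin m) {u : Cube m} (hu : Even (wt u)) :
    ¬ Even (wt (flip i u)) := by
  intro h
  have h1 := (even_dist u (flip i u)).2 (by tauto)
  have h2 := dist_flip i u
  rw [← h2, Nat.even_add_one] at hm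
  exact hm h1

end X225.Rf
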