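import Pool.Agent.X225.Rf.Basic

/-!
Replacing the two fibres over an antipodal pair by a closed pair `(P,Q)`.
-/

namespace X225.Rf

open Finset

/-- the data: a rigid facet `X` of diameter `5` in `Q_7` and a closed pair `(P,Q)` -/
structure Gad (X P Q : Finset (Cube 7)) : Prop where
  hX : R 5 X
  bP : ∀ p ∈ P, ∀ x ∈ X, hammingDist p x ≤ 6
  bQ : ∀ p ∈ Q, ∀ x ∈ X, hammingDist p x ≤ 6
  c : ∀ p ∈ P, ∀ q ∈ Q, hammingDist p q ≤ 5
  dP : ∀ y, y ∉ P → (∃ q ∈ Q, 5 < hammingDist y q) ∨ ∃ x ∈ X, 6 < hammingDist y x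
  dQ : ∀ y, y ∉ Q → (∃ p ∈ P, 5 < hammingDist y p) ∨ ∃ x ∈ X, 6 < hammingDist y x
  eP : ∀ p ∈ P, (∃ q ∈ Q, hammingDist p q = 5) ∨ ∃ x ∈ X, hammingDist p x = 6
  eQ : ∀ q ∈ Q, (∃ p ∈ P, hammingDist q p = 5) ∨ ∃ x ∈ X, hammingDist q x = 6

lemma Gad.swap {X P Q : Finset (Cube 7)} (h : Gad X P Q) : Gad X Q P :=
  ⟨h.hX, h.bQ, h.bP, fun p hp q hq => by rw [hammingDist_comm]; exact h.c q hq p hp,
    h.dQ, h.dP, h.eQ, h.eP⟩

/-- the fibre over `u` -/
def fib {m : ℕ} (X P Q : Finset (Cube 7)) (S : Finset (Cube m)) (u : Cube m) :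
    Finset (Cube 7) :=
  if u ∈ S then P else if neg u ∈ S then Q else X

/-- the set -/
def big {m : ℕ} (X P Q : Finset (Cube 7)) (S : Finset (Cube m)) : Finset (Cube (7 + m)) :=
  (univ.filter fun z : Cube 7 × Cube m => z.1 ∈ fib X P Q S z.2).map ⟨app, app_inj⟩

lemma mem_big {m : ℕ} {X P Q : Finset (Cube 7)} {S : Finset (Cube m)} {x : Cube 7}
    {u : Cube m} : app (x, u) ∈ big X P Q S ↔ x ∈ fib X P Q S u := by
  unfold big
  rw [Finset.mem_map]
  constructor
  · rintro ⟨z, hz, he⟩
    have : z = (x, u) := app_inj he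
    subst this
    exact (Finset.mem_filter.1 hz).2
  · intro h
    exact ⟨(x, u), Finset.mem_filter.2 ⟨Finset.mem_univ _, h⟩, rfl⟩

/-- conditions on the set of modified points -/
structure Ok {m : ℕ} (S : Finset (Cube m)) : Prop where
  even : ∀ u ∈ S, Even (wt u)
  anti : ∀ u ∈ S, neg u ∉ S

/-- the three possible types of an antipodal pair -/
lemma types {m : ℕ} {X P Q : Finset (Cube 7)} {S : Finset (Cube m)} (hS : Ok S) (u : Cube m) :
    (u ∉ S ∧ neg u ∉ S ∧ fib X P Q S u = X ∧ fib X P Q S (neg u) = X) ∨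
    ((u ∈ S ∨ neg u ∈ S) ∧ ((fib X P Q S u = P ∧ fib X P Q S (neg u) = Q) ∨
      (fib X P Q S u = Q ∧ fib X P Q S (neg u) = P))) := by
  by_cases h1 : u ∈ S
  · right
    have h2 := hS.anti u h1
    refine ⟨Or.inl h1, Or.inl ⟨by simp [fib, h1], ?_⟩⟩
    unfold fib
    rw [if_neg h2, neg_neg', if_pos h1]
  · by_cases h2 : neg u ∈ S
    · right
      refine ⟨Or.inr h2, Or.inr ⟨by simp [fib, h1, h2], by simp [fib, h2]⟩⟩
    · left
      refine ⟨h1, h2, by simp [fib, h1, h2], ?_⟩
      unfold fib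
      rw [if_neg h2, neg_neg', if_neg h1]

lemma big_R {m : ℕ} (hm : Even m) (hm0 : 0 < m) {X P Q : Finset (Cube 7)} (g : Gad X P Q)
    {S : Finset (Cube m)} (hS : Ok S) : R (5 + m) (big X P Q S) := by
  have evS : ∀ u : Cube m, (u ∈ S ∨ neg u ∈ S) → Even (wt u) := by
    rintro u (h | h)
    · exact hS.even u h
    · exact (even_neg hm u).1 (hS.even _ h)
  have oddX : ∀ u : Cube m, ¬ Even (wt u) → fib X P Q S u = X := by
    intro u hu
    rcases types (X := X) (P := P) (Q := Q) hS u with h | h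
    · exact h.2.2.1
    · exact absurd (evS u h.1) hu
  -- fibres have bounded distance to `X`
  have toX : ∀ u, ∀ x ∈ fib X P Q S u, ∀ y ∈ X, hammingDist x y ≤ 6 := by
    intro u x hx y hy
    rcases types (X := X) (P := P) (Q := Q) hS u with ⟨_, _, h, _⟩ | ⟨_, ⟨h, _⟩ | ⟨h, _⟩⟩
    · rw [h] at hx
      have := g.hX.le x hx y hy
      omega
    · rw [h] at hx; exact g.bP x hx y hy
    · rw [h] at hx; exact g.bQ x hx y hy
  obtain ⟨x0, hx0⟩ := g.hX.ne
  refine ⟨?_, ?_, ?_, ?_⟩
  · -- nonempty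
    let i : Fin m := ⟨0, hm0⟩
    let u : Cube m := fun j => decide (j = i)
    have hu : ¬ Even (wt u) := by
      have : wt u = 1 := by
        unfold wt
        rw [Finset.sum_eq_single i]
        · simp [u]
        · intro j _ hj
          simp [u, hj]
        · intro h; exact absurd (Finset.mem_univ _) h
      rw [this]; decide
    exact ⟨app (x0, u), mem_big.2 (by rw [oddX u hu]; exact hx0)⟩
  · -- diameter
    intro z hz w hw
    obtain ⟨⟨x, u⟩, rfl⟩ := exists_app z
    obtain ⟨⟨y, v⟩, rfl⟩ := exists_app w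
    have hx := mem_big.1 hz
    have hy := mem_big.1 hw
    rw [dist_app]
    change hammingDist x y + hammingDist u v ≤ 5 + m
    have hle : hammingDist u v ≤ m := by have := dist_neg u v; omega
    have h7 : hammingDist x y ≤ 7 := by have := dist_neg x y; omega
    by_cases hv : hammingDist u v = m
    · have hv' := eq_neg hv
      subst hv'
      rcases types (X := X) (P := P) (Q := Q) hS u with
        ⟨_, _, h1, h2⟩ | ⟨_, ⟨h1, h2⟩ | ⟨h1, h2⟩⟩
      · rw [h1] at hx
        rw [h2] at hy
        have := g.hX.le x hx y hy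
        omega
      · rw [h1] at hx
        rw [h2] at hy
        have := g.c x hx y hy
        omega
      · rw [h1] at hx
        rw [h2] at hy
        have := g.swap.c x hx y hy
        omega
    · rcases types (X := X) (P := P) (Q := Q) hS v with ⟨_, _, h1, _⟩ | ⟨hv2, _⟩
      · rw [h1] at hy
        have := toX u x hx y hy
        omega
      · rcases types (X := X) (P := P) (Q := Q) hS u with ⟨_, _, h1, _⟩ | ⟨hu2, _⟩
        · rw [h1] at hx
          have := toX v y hy x hx
          rw [hammingDist_comm] at this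
          omega
        · have e1 := evS u hu2
          have e2 := evS v hv2
          have e3 := (even_dist u v).2 (by tauto)
          obtain ⟨a, ha⟩ := e3
          obtain ⟨b, hb⟩ := hm
          omega
  · -- every point has a partner
    intro z hz
    obtain ⟨⟨x, u⟩, rfl⟩ := exists_app z
    have hx := mem_big.1 hz
    have step : ∀ P' Q' : Finset (Cube 7), Gad X P' Q' → (u ∈ S ∨ neg u ∈ S) →
        fib X P Q S u = P' → fib X P Q S (neg u) = Q' →
        ∃ w ∈ big X P Q S, hammingDist w (app (x, u)) = 5 + m := by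
      intro P' Q' g' hu h1 h2
      rw [h1] at hx
      rcases g'.eP x hx with ⟨q, hq, hd⟩ | ⟨y, hy, hd⟩
      · refine ⟨app (q, neg u), mem_big.2 (by rw [h2]; exact hq), ?_⟩
        rw [dist_app]
        change hammingDist q x + hammingDist (neg u) u = 5 + m
        rw [hammingDist_comm q x, hammingDist_comm (neg u) u, dist_self_neg, hd]
      · have ho := odd_flip hm ⟨0, hm0⟩ (evS u hu)
        refine ⟨app (y, flip ⟨0, hm0⟩ u), mem_big.2 (by rw [oddX _ ho]; exact hy), ?_⟩
        rw [dist_app]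
        change hammingDist y x + hammingDist (flip ⟨0, hm0⟩ u) u = 5 + m
        have := dist_flip ⟨0, hm0⟩ u
        rw [hammingDist_comm y x, hammingDist_comm (flip ⟨0, hm0⟩ u) u]
        omega
    rcases types (X := X) (P := P) (Q := Q) hS u with
      ⟨_, _, h1, h2⟩ | ⟨hu, ⟨h1, h2⟩ | ⟨h1, h2⟩⟩
    · rw [h1] at hx
      obtain ⟨y, hy, hd⟩ := g.hX.far x hx
      refine ⟨app (y, neg u), mem_big.2 (by rw [h2]; exact hy), ?_⟩
      rw [dist_app]
      change hammingDist y x + hammingDist (neg u) u = 5 + m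
      rw [hammingDist_comm (neg u) u, dist_self_neg, hd]
    · exact step P Q g hu h1 h2
    · exact step Q P g.swap hu h1 h2
  · -- maximality
    intro z hz
    obtain ⟨⟨x, u⟩, rfl⟩ := exists_app z
    have hx : x ∉ fib X P Q S u := fun h => hz (mem_big.2 h)
    have step : ∀ P' Q' : Finset (Cube 7), Gad X P' Q' → (u ∈ S ∨ neg u ∈ S) →
        fib X P Q S u = P' → fib X P Q S (neg u) = Q' →
        ∃ w ∈ big X P Q S, 5 + m < hammingDist (app (x, u)) w := by
      intro P' Q' g' hu h1 h2
      rw [h1] at hx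
      rcases g'.dP x hx with ⟨q, hq, hd⟩ | ⟨y, hy, hd⟩
      · refine ⟨app (q, neg u), mem_big.2 (by rw [h2]; exact hq), ?_⟩
        rw [dist_app]
        change 5 + m < hammingDist x q + hammingDist u (neg u)
        rw [dist_self_neg]
        omega
      · have ho := odd_flip hm ⟨0, hm0⟩ (evS u hu)
        refine ⟨app (y, flip ⟨0, hm0⟩ u), mem_big.2 (by rw [oddX _ ho]; exact hy), ?_⟩
        rw [dist_app]
        change 5 + m < hammingDist x y + hammingDist u (flip ⟨0, hm0⟩ u)
        have := dist_flip ⟨0, hm0⟩ u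
        omega
    rcases types (X := X) (P := P) (Q := Q) hS u with
      ⟨_, _, h1, h2⟩ | ⟨hu, ⟨h1, h2⟩ | ⟨h1, h2⟩⟩
    · rw [h1] at hx
      obtain ⟨y, hy, hd⟩ := g.hX.mx x hx
      refine ⟨app (y, neg u), mem_big.2 (by rw [h2]; exact hy), ?_⟩
      rw [dist_app]
      change 5 + m < hammingDist x y + hammingDist u (neg u)
      rw [dist_self_neg]
      omega
    · exact step P Q g hu h1 h2
    · exact step Q P g.swap hu h1 h2

/-- the cardinality -/
lemma card_big {m : ℕ} (X P Q : Finset (Cube 7)) {S : Finset (Cube m)} (hS : Ok S) :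
    ((big X P Q S).card : ℤ) = X.card * 2 ^ m + S.card * (P.card + Q.card - 2 * X.card) := by
  unfold big
  rw [Finset.card_map, Finset.card_filter]
  rw [← Finset.univ_product_univ, Finset.sum_product_right]
  have h1 : ∀ u : Cube m, (∑ x : Cube 7, if x ∈ fib X P Q S u then 1 else 0)
      = (fib X P Q S u).card := by
    intro u
    rw [← Finset.card_filter, Finset.filter_mem_eq_inter, Finset.univ_inter]
  simp only [h1]
  push_cast
  have h2 : ∀ u : Cube m, ((fib X P Q S u).card : ℤ) = X.card +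
      ((if u ∈ S then ((P.card : ℤ) - X.card) else 0) +
        (if neg u ∈ S then ((Q.card : ℤ) - X.card) else 0)) := by
    intro u
    unfold fib
    by_cases h1 : u ∈ S
    · have := hS.anti u h1
      simp [h1, this]
    · by_cases h2 : neg u ∈ S <;> simp [h1, h2]
  simp only [h2]
  rw [Finset.sum_add_distrib, Finset.sum_add_distrib]
  have h3 : ∑ u : Cube m, (if u ∈ S then ((P.card : ℤ) - X.card) else 0)
      = S.card * ((P.card : ℤ) - X.card) := by
    rw [← Finset.sum_filter, Finset.filter_mem_eq_inter, Finset.univ_inter, Finset.sum_const]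
    simp
  have h4 : ∑ u : Cube m, (if neg u ∈ S then ((Q.card : ℤ) - X.card) else 0)
      = S.card * ((Q.card : ℤ) - X.card) := by
    let e : Cube m ≃ Cube m := ⟨neg, neg, neg_neg', neg_neg'⟩
    have h5 : ∑ u : Cube m, (if neg u ∈ S then ((Q.card : ℤ) - X.card) else 0)
        = ∑ u : Cube m, (if u ∈ S then ((Q.card : ℤ) - X.card) else 0) :=
      Equiv.sum_comp e (fun u => if u ∈ S then ((Q.card : ℤ) - X.card) else 0)
    rw [h5, ← Finset.sum_filter, Finset.filter_mem_eq_inter, Finset.univ_inter, Finset.sum_const]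
    simp
  rw [h3, h4]
  simp
  ring

/-! ### many modified points -/

/-- weight even or odd -/
def par {s : ℕ} (w : Cube s) : Bool := decide (Even (wt w))

/-- an even vector of length `s+2` with first coordinate `true` -/
def phi {s : ℕ} (w : Cube s) : Cube (s + 2) := emb true (emb (par w) w)

lemma wt_emb {s : ℕ} (b : Bool) (w : Cube s) : wt (emb b w) = b.toNat + wt w := by
  unfold wt
  rw [Fin.sum_univ_succ]
  rfl

lemma phi_inj {s : ℕ} : Function.Injective (phi : Cube s → Cube (s + 2)) := by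
  intro w w' h
  have h1 := (emb true).injective h
  funext i
  exact congrFun h1 i.succ

lemma even_phi {s : ℕ} (w : Cube s) : Even (wt (phi w)) := by
  unfold phi
  rw [wt_emb, wt_emb]
  by_cases h : Even (wt w)
  · have : par w = true := by simp [par, h]
    rw [this]
    obtain ⟨a, ha⟩ := h
    exact ⟨a + 1, by simp only [Bool.toNat_true]; omega⟩
  · have h' : par w = false := by simp [par, h]
    rw [h']
    obtain ⟨a, ha⟩ := Nat.not_even_iff_odd.1 h
    exact ⟨a + 1, by simp only [Bool.toNat_true, Bool.toNat_false]; omega⟩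

lemma exists_ok {s k : ℕ} (hk : k ≤ 2 ^ s) : ∃ S : Finset (Cube (s + 2)), Ok S ∧ S.card = k := by
  have hc : ((Finset.univ : Finset (Cube s)).image phi).card = 2 ^ s := by
    rw [Finset.card_image_of_injective _ phi_inj]
    simp [Cube]
  obtain ⟨S, hS, hk'⟩ := Finset.exists_subset_card_eq (s := (Finset.univ : Finset (Cube s)).image phi)
    (n := k) (by rw [hc]; exact hk)
  refine ⟨S, ⟨?_, ?_⟩, hk'⟩
  · intro u hu
    obtain ⟨w, _, rfl⟩ := Finset.mem_image.1 (hS hu)
    exact even_phi w
  · intro u hu hu'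
    obtain ⟨w, _, rfl⟩ := Finset.mem_image.1 (hS hu)
    obtain ⟨w', _, he⟩ := Finset.mem_image.1 (hS hu')
    have h0 : (phi w') 0 = (neg (phi w)) 0 := by rw [he]
    have h1 : (phi w') 0 = true := rfl
    have h2 : (neg (phi w)) 0 = false := rfl
    rw [h1, h2] at h0
    exact absurd h0 (by decide)

end X225.Rf
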